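import Pool.Agent.W819.EN.Stm
import Pool.Agent.H863R2.NL.Int

/-!
# Project EN: an explicit integral
-/

set_option autoImplicit false

namespace Pool.Agent.W762.EN

open scoped Real
open MeasureTheory Filter Topology
open Pool.Agent.W819.EN Pool.Agent.H863R2.NL Pool.Agent.H863R2.NL.IntAux

theorem den2_pos (x φ : ℝ) : 0 < Real.cosh x + Real.cosh φ :=
  add_pos (Real.cosh_pos x) (Real.cosh_pos φ)

theorem q_le (x φ : ℝ) : 1 / (Real.cosh x + Real.cosh φ) ≤ 3 * (1 / (2 * Real.cosh x + 1)) := by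
  have h1 := Real.one_le_cosh x
  have h2 := Real.one_le_cosh φ
  have h3 := den_pos x
  rw [mul_one_div, div_le_div_iff₀ (den2_pos x φ) h3]
  nlinarith

theorem q_int (φ : ℝ) : Integrable (fun x : ℝ => Real.sinh φ / (Real.cosh x + Real.cosh φ)) := by
  have hc : Continuous fun x : ℝ => Real.sinh φ / (Real.cosh x + Real.cosh φ) :=
    continuous_const.div (by fun_prop) fun x => (den2_pos x φ).ne'
  refine ((p_int.const_mul 3).const_mul |Real.sinh φ|).mono' hc.aestronglyMeasurable
    (Eventually.of_forall fun x => ?_)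
  rw [Real.norm_eq_abs, abs_div, abs_of_pos (den2_pos x φ), div_eq_mul_one_div]
  exact mul_le_mul_of_nonneg_left (q_le x φ) (abs_nonneg _)

theorem G_deriv (φ x : ℝ) : HasDerivAt
    (fun x : ℝ => Real.log (Real.exp x + Real.exp (-φ)) - Real.log (Real.exp x + Real.exp φ))
    (Real.sinh φ / (Real.cosh x + Real.cosh φ)) x := by
  have h1 : 0 < Real.exp x + Real.exp (-φ) := by positivity
  have h2 : 0 < Real.exp x + Real.exp φ := by positivity
  have h3 := ((Real.hasDerivAt_exp x).add_const (Real.exp (-φ))).log h1.ne'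
  have h4 := ((Real.hasDerivAt_exp x).add_const (Real.exp φ)).log h2.ne'
  refine (h3.sub h4).congr_deriv ?_
  have hx := Real.exp_pos x
  have hf := Real.exp_pos φ
  rw [Real.sinh_eq, Real.cosh_eq, Real.cosh_eq, Real.exp_neg, Real.exp_neg] at *
  set X := Real.exp x with hX
  set Y := Real.exp φ with hY
  have h5 : 0 < (X + X⁻¹) / 2 + (Y + Y⁻¹) / 2 := by positivity
  rw [div_sub_div _ _ h1.ne' h2.ne', div_eq_div_iff (mul_pos h1 h2).ne' h5.ne']
  field_simp
  ring

theorem G_bot (φ : ℝ) : Tendsto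
    (fun x : ℝ => Real.log (Real.exp x + Real.exp (-φ)) - Real.log (Real.exp x + Real.exp φ))
    atBot (𝓝 (-(2 * φ))) := by
  have h1 : Tendsto (fun x : ℝ => Real.log (Real.exp x + Real.exp (-φ))) atBot
      (𝓝 (Real.log (0 + Real.exp (-φ)))) :=
    (Real.tendsto_exp_atBot.add_const _).log (by positivity)
  have h2 : Tendsto (fun x : ℝ => Real.log (Real.exp x + Real.exp φ)) atBot
      (𝓝 (Real.log (0 + Real.exp φ))) :=
    (Real.tendsto_exp_atBot.add_const _).log (by positivity)
  have h3 := h1.sub h2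
  rw [zero_add, zero_add, Real.log_exp, Real.log_exp] at h3
  have e : -φ - φ = -(2 * φ) := by ring
  rwa [e] at h3

theorem G_top (φ : ℝ) : Tendsto
    (fun x : ℝ => Real.log (Real.exp x + Real.exp (-φ)) - Real.log (Real.exp x + Real.exp φ))
    atTop (𝓝 0) := by
  have h1 : Tendsto (fun x : ℝ => Real.log (1 + Real.exp (-φ) * Real.exp (-x))) atTop
      (𝓝 (Real.log (1 + Real.exp (-φ) * 0))) := by
    refine Tendsto.log ?_ (by norm_num)
    exact (Real.tendsto_exp_neg_atTop_nhds_zero.const_mul _).const_add 1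
  have h2 : Tendsto (fun x : ℝ => Real.log (1 + Real.exp φ * Real.exp (-x))) atTop
      (𝓝 (Real.log (1 + Real.exp φ * 0))) := by
    refine Tendsto.log ?_ (by norm_num)
    exact (Real.tendsto_exp_neg_atTop_nhds_zero.const_mul _).const_add 1
  have h3 := h1.sub h2
  rw [mul_zero, mul_zero, add_zero, Real.log_one, sub_zero] at h3
  refine h3.congr fun x => ?_
  have e : ∀ c : ℝ, 0 < c → Real.log (Real.exp x + c) = x + Real.log (1 + c * Real.exp (-x)) := by
    intro c hc
    have h4 : Real.exp x + c = Real.exp x * (1 + c * Real.exp (-x)) := by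
      rw [mul_add, mul_one, mul_left_comm, ← Real.exp_add, add_neg_cancel, Real.exp_zero, mul_one]
    have h5 : 0 < 1 + c * Real.exp (-x) := by positivity
    rw [h4, Real.log_mul (Real.exp_pos x).ne' h5.ne', Real.log_exp]
  rw [e _ (Real.exp_pos _), e _ (Real.exp_pos _)]
  ring

theorem int_q (φ : ℝ) : ∫ x : ℝ, Real.sinh φ / (Real.cosh x + Real.cosh φ) = 2 * φ := by
  rw [integral_of_hasDerivAt_of_tendsto (G_deriv φ) (q_int φ) (G_bot φ) (G_top φ)]
  ring

/-- the integrand -/
noncomputable def f (φ x : ℝ) : ℝ :=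
  Real.log (1 + 1 / (2 * Real.cosh x + 1) * (2 * Real.cosh φ - 1))

theorem arg_eq (φ x : ℝ) : 1 + 1 / (2 * Real.cosh x + 1) * (2 * Real.cosh φ - 1) =
    2 * (Real.cosh x + Real.cosh φ) / (2 * Real.cosh x + 1) := by
  have := den_pos x
  field_simp
  ring

theorem arg_pos (φ x : ℝ) : 0 < 1 + 1 / (2 * Real.cosh x + 1) * (2 * Real.cosh φ - 1) := by
  rw [arg_eq]
  have h1 := den_pos x
  have h2 := den2_pos x φ
  positivity

theorem f_cont (φ : ℝ) : Continuous (f φ) := by
  unfold f
  exact (continuous_const.add (p_cont.mul continuous_const)).log fun x => (arg_pos φ x).ne'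

theorem f_int (φ : ℝ) : Integrable (f φ) := by
  refine (p_int.mul_const (2 * Real.cosh φ - 1)).mono' (f_cont φ).aestronglyMeasurable
    (Eventually.of_forall fun x => ?_)
  have h1 := Real.one_le_cosh φ
  have h2 : 0 ≤ 1 / (2 * Real.cosh x + 1) * (2 * Real.cosh φ - 1) :=
    mul_nonneg (p_nonneg x) (by linarith)
  unfold f
  rw [Real.norm_eq_abs, abs_of_nonneg (Real.log_nonneg (by linarith))]
  have := Real.log_le_sub_one_of_pos (arg_pos φ x)
  linarith

theorem f_deriv (φ x : ℝ) : HasDerivAt (fun φ => f φ x)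
    (Real.sinh φ / (Real.cosh x + Real.cosh φ)) φ := by
  unfold f
  have h1 : HasDerivAt (fun φ : ℝ => 1 + 1 / (2 * Real.cosh x + 1) * (2 * Real.cosh φ - 1))
      (1 / (2 * Real.cosh x + 1) * (2 * Real.sinh φ)) φ :=
    ((((Real.hasDerivAt_cosh φ).const_mul 2).sub_const 1).const_mul _).const_add 1
  refine (h1.log (arg_pos φ x).ne').congr_deriv ?_
  rw [arg_eq]
  have h2 := den_pos x
  have h3 := den2_pos x φ
  field_simp

theorem F_deriv (φ : ℝ) : HasDerivAt (fun φ => ∫ x, f φ x) (2 * φ) φ := by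
  have h := hasDerivAt_integral_of_dominated_loc_of_deriv_le (μ := volume) (F := f)
    (F' := fun φ x => Real.sinh φ / (Real.cosh x + Real.cosh φ)) (x₀ := φ)
    (s := Metric.ball φ 1) (bound := fun x => Real.cosh (|φ| + 1) * (3 * (1 / (2 * Real.cosh x + 1))))
    (Metric.ball_mem_nhds φ one_pos)
    (Eventually.of_forall fun φ => (f_cont φ).aestronglyMeasurable) (f_int φ)
    (q_int φ).aestronglyMeasurable
    (Eventually.of_forall fun x ψ hψ => by
      rw [Metric.mem_ball, Real.dist_eq] at hψ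
      rw [Real.norm_eq_abs, abs_div, abs_of_pos (den2_pos x ψ), div_eq_mul_one_div]
      have h1 : |Real.sinh ψ| ≤ Real.cosh (|φ| + 1) := by
        have h2 : |Real.sinh ψ| ≤ Real.cosh ψ := by
          rw [abs_le]
          constructor
          · have := Real.cosh_add_sinh ψ
            have h4 := Real.exp_pos ψ
            linarith
          · exact (Real.sinh_lt_cosh ψ).le
        have h3 : Real.cosh ψ ≤ Real.cosh (|φ| + 1) := by
          rw [Real.cosh_le_cosh, abs_of_nonneg (by positivity : 0 ≤ |φ| + 1)]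
          have := abs_sub_abs_le_abs_sub ψ φ
          linarith
        exact h2.trans h3
      exact mul_le_mul h1 (q_le x ψ) (one_div_pos.2 (den2_pos x ψ)).le (Real.cosh_pos _).le)
    ((p_int.const_mul 3).const_mul _)
    (Eventually.of_forall fun x ψ _ => f_deriv ψ x)
  have h2 := h.2
  simp only [int_q] at h2
  exact h2

theorem F_eq (φ : ℝ) : ∫ x, f φ x = π ^ 2 / 9 + φ ^ 2 := by
  have hD : ∀ φ, HasDerivAt (fun φ => (∫ x, f φ x) - φ ^ 2) 0 φ := by
    intro φ
    have h1 := (F_deriv φ).sub (hasDerivAt_pow 2 φ)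
    refine h1.congr_deriv ?_
    norm_num
  have h0 : ∫ x, f 0 x = π ^ 2 / 9 := by
    have h := (Pool.Agent.H160R2.OA.integral_log 0 le_rfl Real.pi_pos).2
    rw [Real.cos_zero] at h
    have e : ∀ x : ℝ, f 0 x =
        -Real.log ((2 * Real.cosh x + 1) / (2 * Real.cosh x + 2 * 1)) := by
      intro x
      unfold f
      rw [arg_eq, Real.cosh_zero, ← Real.log_inv, inv_div]
      congr 1
      ring
    simp only [e]
    rw [integral_neg, h]
    ring
  have h1 := is_const_of_deriv_eq_zero (f := fun φ => (∫ x, f φ x) - φ ^ 2)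
    (fun φ => (hD φ).differentiableAt) (fun φ => (hD φ).deriv) φ 0
  rw [h0] at h1
  linarith

theorem t_INT : SInt := by
  intro t ht
  rcases lt_or_ge t 2 with h | h
  · rw [int_log ht h, max_eq_right (by linarith), Real.arcosh_zero]
    ring
  · have h1 : 1 ≤ t / 2 := by linarith
    rw [max_eq_left h1, Real.arccos_eq_zero.2 h1]
    have h2 : 2 * Real.cosh (Real.arcosh (t / 2)) = t := by
      rw [Real.cosh_arcosh h1]
      ring
    have h3 := F_eq (Real.arcosh (t / 2))
    unfold f at h3
    rw [h2] at h3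
    rw [h3]
    ring

end Pool.Agent.W762.EN
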